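import Pool.Agent.H20.T4.Stm

/-!
Project TM4 (MP_b6022c_nt), row P5: the truncated theorem from (DEX), (CELL), (MOST).
-/

set_option autoImplicit false

namespace Pool.Agent.H96.T4

open Finset Pool.Agent.H9.TC Pool.Agent.H20.TM Pool.Agent.H20.T4

theorem p5_sum_mul (f : ℕ → ℝ) (A B : ℕ) :
    ∑ n ∈ range (A * B), f n = ∑ i ∈ range A, ∑ j ∈ range B, f (i * B + j) := by
  induction A with
  | zero => simp
  | succ A ih => rw [Nat.succ_mul, Finset.sum_range_add, ih, Finset.sum_range_succ]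

theorem p5_absTW (u v : ℕ) (x : ℤ) : |TW u v x| = 1 := by
  unfold TW
  rw [Finset.abs_prod]
  refine Finset.prod_eq_one fun i _ => ?_
  split_ifs <;> simp

theorem p5_abs_sum_le (f : ℕ → ℝ) (A : ℕ) (K : ℝ) (h : ∀ i < A, |f i| ≤ K) :
    |∑ i ∈ range A, f i| ≤ A * K := by
  refine (Finset.abs_sum_le_sum_abs _ _).trans ?_
  refine (Finset.sum_le_sum fun i hi => h i (Finset.mem_range.1 hi)).trans ?_
  rw [Finset.sum_const, Finset.card_range, nsmul_eq_mul]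

theorem p5_shift (F : ℤ → ℝ) (hF : ∀ x, |F x| ≤ 1) (B : ℕ) (n : ℤ) (t : ℕ) :
    |∑ y ∈ range B, F (n + y) - ∑ y ∈ range B, F (n + y + t)| ≤ 2 * t := by
  induction t with
  | zero => simp
  | succ t ih =>
    have h4 : ∑ y ∈ range B, F (n + y + ((t + 1 : ℕ) : ℤ)) =
        ∑ y ∈ range B, F (n + ((y + 1 : ℕ) : ℤ) + t) := by
      refine Finset.sum_congr rfl fun y _ => ?_
      congr 1
      push_cast
      ring
    have h2 := Finset.sum_range_succ (fun y : ℕ => F (n + y + t)) B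
    have h3 := Finset.sum_range_succ' (fun y : ℕ => F (n + y + t)) B
    have h5 := hF (n + (B : ℤ) + t)
    have h6 := hF (n + ((0 : ℕ) : ℤ) + t)
    rw [h4]
    rw [h2] at h3
    rw [abs_le] at ih h5 h6 ⊢
    push_cast
    push_cast at h3 h6
    constructor <;> linarith [ih.1, ih.2, h5.1, h5.2, h6.1, h6.2]

theorem p5_block (F : ℤ → ℝ) (hF : ∀ x, |F x| ≤ 1) (B S X D E : ℕ) (hE : S + D * X ≤ E) (n : ℤ) :
    |(S * X : ℝ) * ∑ y ∈ range B, F (n + y) -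
      ∑ y ∈ range B, ∑ x ∈ range X, ∑ s ∈ range S, F (n + y + s + D * x)| ≤
        X * (S * (2 * E)) := by
  have h1 : (S * X : ℝ) * ∑ y ∈ range B, F (n + y) =
      ∑ _x ∈ range X, ∑ _s ∈ range S, ∑ y ∈ range B, F (n + y) := by
    rw [Finset.sum_const, Finset.sum_const, Finset.card_range, Finset.card_range, nsmul_eq_mul,
      nsmul_eq_mul]
    ring
  have h2 : ∑ y ∈ range B, ∑ x ∈ range X, ∑ s ∈ range S, F (n + y + s + D * x) =
      ∑ x ∈ range X, ∑ s ∈ range S, ∑ y ∈ range B, F (n + y + ((s + D * x : ℕ) : ℤ)) := by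
    rw [Finset.sum_comm]
    refine Finset.sum_congr rfl fun x _ => ?_
    rw [Finset.sum_comm]
    refine Finset.sum_congr rfl fun s _ => Finset.sum_congr rfl fun y _ => ?_
    congr 1
    push_cast
    ring
  rw [h1, h2, ← Finset.sum_sub_distrib]
  refine p5_abs_sum_le _ _ _ fun x hx => ?_
  rw [← Finset.sum_sub_distrib]
  refine p5_abs_sum_le _ _ _ fun s hs => ?_
  refine (p5_shift F hF B n _).trans ?_
  have h3 : s + D * x ≤ E := by
    have : D * x ≤ D * X := Nat.mul_le_mul_left _ hx.le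
    omega
  have h4 : ((s + D * x : ℕ) : ℝ) ≤ E := by exact_mod_cast h3
  linarith

theorem p5_bad (G : ℕ → ℝ) (A : ℕ) (P : ℕ → Prop) (K ε : ℝ) (hK : 0 ≤ K) (hε : 0 ≤ ε)
    (h1 : ∀ n < A, |G n| ≤ K) (h2 : ∀ n < A, ¬ P n → |G n| ≤ ε * K)
    (hP : (cnt A P : ℝ) ≤ ε * A) : |∑ n ∈ range A, G n| ≤ 2 * ε * K * A := by
  classical
  have h3 : ∀ n ∈ range A, |G n| ≤ ε * K + (if P n then K else 0) := by
    intro n hn
    have hn' := Finset.mem_range.1 hn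
    split_ifs with h
    · have := h1 n hn'
      have h5 : 0 ≤ ε * K := by positivity
      linarith
    · rw [add_zero]
      exact h2 n hn' h
  refine (Finset.abs_sum_le_sum_abs _ _).trans ((Finset.sum_le_sum h3).trans ?_)
  have h4 : ∑ n ∈ range A, (if P n then K else 0) = (cnt A P : ℝ) * K := by
    unfold cnt
    rw [← Finset.sum_filter, Finset.sum_const, nsmul_eq_mul]
  rw [Finset.sum_add_distrib, h4, Finset.sum_const, Finset.card_range, nsmul_eq_mul]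
  have h5 : (cnt A P : ℝ) * K ≤ ε * A * K := mul_le_mul_of_nonneg_right hP hK
  linarith

theorem p5_avg (F : ℤ → ℝ) (hF : ∀ x, |F x| ≤ 1) (a β M S X E : ℕ) (hβ : β ≤ a) (Dd : ℕ → ℕ)
    (hE : ∀ b, S + Dd b * X ≤ E) (P : ℕ → Prop) (ε : ℝ) (hε : 0 ≤ ε)
    (hG : ∀ n0 < 2 ^ a, ¬ P n0 → |∑ m ∈ range M, ∑ x ∈ range X, ∑ s ∈ range S,
      F (n0 + s + Dd (n0 / 2 ^ β) * x + 2 ^ a * m)| ≤ ε * (S * X * M))
    (hP : (cnt (2 ^ a) P : ℝ) ≤ ε * 2 ^ a) (hEε : 2 * (E : ℝ) ≤ ε * 2 ^ β) (hS : 1 ≤ S)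
    (hX : 1 ≤ X) :
    |∑ n ∈ range (M * 2 ^ a), F n| ≤ 3 * ε * (M * 2 ^ a) := by
  set G : ℕ → ℝ := fun n0 => ∑ m ∈ range M, ∑ x ∈ range X, ∑ s ∈ range S,
      F (n0 + s + Dd (n0 / 2 ^ β) * x + 2 ^ a * m) with hGdef
  have hS0 : (0 : ℝ) < S := by exact_mod_cast hS
  have hX0 : (0 : ℝ) < X := by exact_mod_cast hX
  have h1 : |∑ n ∈ range (2 ^ a), G n| ≤ 2 * ε * (S * X * M) * ((2 ^ a : ℕ) : ℝ) := by
    refine p5_bad G (2 ^ a) P _ ε (by positivity) hε ?_ hG (by push_cast; exact hP)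
    intro n _
    have h2 : |G n| ≤ M * (X * (S * 1)) := by
      refine p5_abs_sum_le _ _ _ fun m _ => ?_
      refine p5_abs_sum_le _ _ _ fun x _ => ?_
      exact p5_abs_sum_le _ _ _ fun s _ => hF _
    linarith
  have h2a : 2 ^ a = 2 ^ (a - β) * 2 ^ β := by
    rw [← pow_add]
    congr 1
    omega
  have hg : ∑ n ∈ range (2 ^ a), G n = ∑ m ∈ range M, ∑ b ∈ range (2 ^ (a - β)),
      ∑ y ∈ range (2 ^ β), ∑ x ∈ range X, ∑ s ∈ range S,
        F ((2 ^ a * m + b * 2 ^ β : ℤ) + y + s + Dd b * x) := by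
    rw [h2a, p5_sum_mul G (2 ^ (a - β)) (2 ^ β)]
    have h3 : ∀ b ∈ range (2 ^ (a - β)), ∑ j ∈ range (2 ^ β), G (b * 2 ^ β + j) =
        ∑ m ∈ range M, ∑ y ∈ range (2 ^ β), ∑ x ∈ range X, ∑ s ∈ range S,
          F ((2 ^ a * m + b * 2 ^ β : ℤ) + y + s + Dd b * x) := by
      intro b _
      rw [Finset.sum_comm]
      refine Finset.sum_congr rfl fun m _ => Finset.sum_congr rfl fun y hy =>
        Finset.sum_congr rfl fun x _ => Finset.sum_congr rfl fun s _ => ?_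
      have h4 : (b * 2 ^ β + y) / 2 ^ β = b := by
        rw [mul_comm, Nat.mul_add_div (by positivity), Nat.div_eq_of_lt (Finset.mem_range.1 hy),
          add_zero]
      rw [h4]
      congr 1
      push_cast
      ring
    rw [Finset.sum_congr rfl h3, Finset.sum_comm]
  have hf : ∑ n ∈ range (M * 2 ^ a), F n = ∑ m ∈ range M, ∑ b ∈ range (2 ^ (a - β)),
      ∑ y ∈ range (2 ^ β), F ((2 ^ a * m + b * 2 ^ β : ℤ) + y) := by
    rw [p5_sum_mul (fun n : ℕ => F n) M (2 ^ a)]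
    refine Finset.sum_congr rfl fun m _ => ?_
    have h5 := p5_sum_mul (fun j => F ((m * 2 ^ a + j : ℕ) : ℤ)) (2 ^ (a - β)) (2 ^ β)
    rw [← h2a] at h5
    rw [h5]
    refine Finset.sum_congr rfl fun b _ => Finset.sum_congr rfl fun y _ => ?_
    congr 1
    push_cast
    ring
  have h3 : |(S * X : ℝ) * ∑ n ∈ range (M * 2 ^ a), F n - ∑ n ∈ range (2 ^ a), G n| ≤
      M * (((2 ^ (a - β) : ℕ) : ℝ) * (X * (S * (2 * E)))) := by
    rw [hg, hf, Finset.mul_sum, ← Finset.sum_sub_distrib]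
    refine p5_abs_sum_le _ _ _ fun m _ => ?_
    rw [Finset.mul_sum, ← Finset.sum_sub_distrib]
    refine p5_abs_sum_le _ _ _ fun b _ => ?_
    exact p5_block F hF (2 ^ β) S X (Dd b) E (hE b) _
  have h4 : M * (((2 ^ (a - β) : ℕ) : ℝ) * (X * (S * (2 * E)))) ≤
      (S * X) * (ε * (M * 2 ^ a)) := by
    have h5 : M * (((2 ^ (a - β) : ℕ) : ℝ) * (X * (S * (2 * E)))) ≤
        M * (((2 ^ (a - β) : ℕ) : ℝ) * (X * (S * (ε * 2 ^ β)))) := by gcongr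
    refine h5.trans (le_of_eq ?_)
    have h6 : (2 : ℝ) ^ a = ((2 ^ (a - β) : ℕ) : ℝ) * 2 ^ β := by
      have := congrArg (fun n : ℕ => (n : ℝ)) h2a
      push_cast at this ⊢
      exact this
    rw [h6]
    ring
  have h5 : |(S * X : ℝ) * ∑ n ∈ range (M * 2 ^ a), F n| ≤
      (S * X) * (3 * ε * (M * 2 ^ a)) := by
    have h6 : (S * X : ℝ) * ∑ n ∈ range (M * 2 ^ a), F n =
        ((S * X : ℝ) * ∑ n ∈ range (M * 2 ^ a), F n - ∑ n ∈ range (2 ^ a), G n) +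
          ∑ n ∈ range (2 ^ a), G n := by ring
    rw [h6]
    refine (abs_add_le _ _).trans ?_
    push_cast at h1
    linarith
  rw [abs_mul, abs_of_pos (by positivity : (0 : ℝ) < S * X)] at h5
  exact le_of_mul_le_mul_left h5 (by positivity)

/-- the parameters -/
theorem p5_params {CR q kk ν L C' P : ℕ} (hq : 1 ≤ q) (hCR : 2000 ≤ CR) (hkk : kk = 20 * CR + 10)
    (hν : (P + L + C' + 2) * (10 * CR * C1 q) ≤ ν) :
    ∃ p v1 K1 K2 w a β : ℕ, w = C1 q * p ∧ P ≤ w ∧ a + w = ν ∧ β + 3 * (CR * w) = ν ∧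
      10 * (CR * w) ≤ ν ∧ 2000 * w ≤ CR * w ∧ 3 * ν + C' ≤ 2 * a + kk * w ∧
      K1 ≤ (21 * CR + 2000) * C1 q ∧ K2 ≤ (21 * CR + 2000) * C1 q ∧ (20 * q + 16) * p ≤ v1 ∧
      v1 ≤ (20 * q + 17) * p ∧ CR * w + 2000 * w ≤ v1 + K1 * p ∧
      v1 + K1 * p ≤ CR * w + 2100 * w ∧
      v1 + K1 * p + L + (2 * q + 4) * p + K2 * p = a := by
  have hC1 : 1 ≤ C1 q := by unfold C1; omega
  have hpos : 0 < 10 * CR * C1 q := by positivity
  have e1 : 10 * CR * C1 q * (ν / (10 * CR * C1 q)) ≤ ν := Nat.mul_div_le _ _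
  have e2 : ν < 10 * CR * C1 q * (ν / (10 * CR * C1 q) + 1) := Nat.lt_mul_div_succ _ hpos
  have e3 : P + L + C' + 2 ≤ ν / (10 * CR * C1 q) := by
    rw [Nat.le_div_iff_mul_le hpos]
    exact hν
  generalize ν / (10 * CR * C1 q) = p at e1 e2 e3
  have hp0 : 0 < p := by omega
  -- atoms
  obtain ⟨w, hw⟩ : ∃ w, w = C1 q * p := ⟨_, rfl⟩
  obtain ⟨A, hA⟩ : ∃ A, A = CR * w := ⟨_, rfl⟩
  obtain ⟨B, hB⟩ : ∃ B, B = CR * C1 q := ⟨_, rfl⟩
  obtain ⟨X, hX⟩ : ∃ X, X = q * p := ⟨_, rfl⟩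
  have hAB : A = B * p := by rw [hA, hB, hw]; ring
  have hw1 : p ≤ w := by rw [hw]; exact Nat.le_mul_of_pos_left _ hC1
  have hw2 : 30 * X + 20 * p ≤ w := by
    rw [hw, hX]
    unfold C1
    nlinarith [Nat.zero_le (q ^ 2 * p)]
  have hA1 : 2000 * w ≤ A := by rw [hA]; exact Nat.mul_le_mul_right _ hCR
  have hB2 : 2 * B ≤ A := by
    rw [hAB, mul_comm 2 B]
    exact Nat.mul_le_mul_left _ (by omega)
  have e1' : 10 * A ≤ ν := by
    calc 10 * A = 10 * CR * C1 q * p := by rw [hA, hw]; ring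
      _ ≤ ν := e1
  have e2' : ν < 10 * A + 10 * B := by
    calc ν < 10 * CR * C1 q * (p + 1) := e2
      _ = 10 * A + 10 * B := by rw [hA, hw, hB]; ring
  have hk : kk * w = 20 * A + 10 * w := by rw [hkk, hA]; ring
  have hK1 : (CR + 2000) * C1 q * p = A + 2000 * w := by rw [hA, hw]; ring
  have f1 : (20 * q + 16) * p = 20 * X + 16 * p := by rw [hX]; ring
  have f2 : (20 * q + 17) * p = 20 * X + 17 * p := by rw [hX]; ring
  have f3 : (2 * q + 4) * p = 2 * X + 4 * p := by rw [hX]; ring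
  have hT0 : L + (2 * X + 4 * p) + (A + 2000 * w) + (20 * X + 16 * p) + w ≤ ν := by omega
  obtain ⟨T, hT⟩ : ∃ T, T + (L + (2 * X + 4 * p) + (A + 2000 * w) + (20 * X + 16 * p) + w) = ν :=
    ⟨ν - (L + (2 * X + 4 * p) + (A + 2000 * w) + (20 * X + 16 * p) + w), by omega⟩
  have hTd : T / p * p + T % p = T := Nat.div_add_mod' T p
  have hTm : T % p < p := Nat.mod_lt _ hp0
  have hK2 : T / p ≤ 15 * B := by
    have h1 : T / p * p ≤ 15 * B * p := by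
      have h2 : 15 * B * p = 15 * A := by rw [hAB]; ring
      rw [h2]
      omega
    exact Nat.le_of_mul_le_mul_right h1 hp0
  have hKn1 : (CR + 2000) * C1 q ≤ (21 * CR + 2000) * C1 q :=
    Nat.mul_le_mul_right _ (by omega)
  have hKn2 : 15 * B ≤ (21 * CR + 2000) * C1 q := by
    rw [hB, ← mul_assoc]
    exact Nat.mul_le_mul_right _ (by omega)
  generalize T / p = K2 at hTd hK2
  generalize T % p = r at hTd hTm
  refine ⟨p, 20 * X + 16 * p + r, (CR + 2000) * C1 q, K2, w, ν - w, ν - 3 * A, hw, by omega,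
    by omega, ?_, ?_, ?_, ?_, hKn1, hK2.trans hKn2, ?_, ?_, ?_, ?_, ?_⟩
  · rw [← hA]; omega
  · rw [← hA]; omega
  · rw [← hA]; omega
  · rw [hk]; omega
  · rw [f1]; omega
  · rw [f2]; omega
  · rw [hK1, ← hA]; omega
  · rw [hK1, ← hA]; omega
  · rw [hK1, f3]; omega

theorem p5_coef {q1 : ℕ} (d e f g' : Fin q1 → ℤ) : ∃ Cf : ℕ, (∀ i, |d i| ≤ Cf) ∧
    (∀ i, |e i| ≤ Cf) ∧ (∀ i, |f i| ≤ Cf) ∧ (∀ i, |g' i| ≤ Cf) := by
  have h : ∀ u : Fin q1 → ℤ, ∀ i, |u i| ≤ ((∑ i, (u i).natAbs : ℕ) : ℤ) := by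
    intro u i
    rw [Nat.cast_sum, ← Int.natCast_natAbs]
    exact Finset.single_le_sum (f := fun i => (((u i).natAbs : ℕ) : ℤ))
      (fun j _ => by positivity) (mem_univ i)
  refine ⟨∑ i, (d i).natAbs + ∑ i, (e i).natAbs + ∑ i, (f i).natAbs + ∑ i, (g' i).natAbs,
    fun i => ?_, fun i => ?_, fun i => ?_, fun i => ?_⟩
  · refine (h d i).trans ?_
    exact_mod_cast (by omega : ∑ i, (d i).natAbs ≤
      ∑ i, (d i).natAbs + ∑ i, (e i).natAbs + ∑ i, (f i).natAbs + ∑ i, (g' i).natAbs)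
  · refine (h e i).trans ?_
    exact_mod_cast (by omega : ∑ i, (e i).natAbs ≤
      ∑ i, (d i).natAbs + ∑ i, (e i).natAbs + ∑ i, (f i).natAbs + ∑ i, (g' i).natAbs)
  · refine (h f i).trans ?_
    exact_mod_cast (by omega : ∑ i, (f i).natAbs ≤
      ∑ i, (d i).natAbs + ∑ i, (e i).natAbs + ∑ i, (f i).natAbs + ∑ i, (g' i).natAbs)
  · refine (h g' i).trans ?_
    exact_mod_cast (by omega : ∑ i, (g' i).natAbs ≤
      ∑ i, (d i).natAbs + ∑ i, (e i).natAbs + ∑ i, (f i).natAbs + ∑ i, (g' i).natAbs)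

/-- (P5) -/
theorem p5 (hdex : DEXStmt) (hcell : CELLStmt) (hmost : MOSTStmt) : H20.T4.P5Stmt := by
  intro q1 c d e f g' C' ε hq1 hc hd hε
  obtain ⟨CR, hCR, hdex⟩ := hdex
  obtain ⟨w1, hdex⟩ := hdex c hc
  obtain ⟨Cf, hCd, hCe, hCf, hCg⟩ := p5_coef d e f g'
  obtain ⟨kk, hkk⟩ : ∃ kk, kk = 20 * CR + 10 := ⟨_, rfl⟩
  have hkk1 : 481 ≤ kk := by omega
  have hq0 : 1 ≤ q1 * 2 ^ kk := Nat.mul_pos hq1 (by positivity)
  have hε4 : 0 < ε / 4 := by positivity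
  obtain ⟨ε1, hε1, hcell⟩ := hcell q1 c Cf kk ((21 * CR + 2000) * C1 (q1 * 2 ^ kk)) (ε / 4) hq1 hc
    hkk1 hε4
  obtain ⟨g1, hmost⟩ := hmost q1 c Cf kk ((21 * CR + 2000) * C1 (q1 * 2 ^ kk)) C' CR ε1 (ε / 4)
    hq1 hc hkk1 hCR hε1 hε4 d e f g' hCd
  obtain ⟨g, L, g9, w2, hg, hL, hcell⟩ := hcell g1
  obtain ⟨w3, hmost⟩ := hmost g hg L g9 hL
  obtain ⟨P, hP⟩ := exists_nat_gt (16 / ε)
  refine ⟨((w1 + w2 + w3 + P + 1) + L + C' + 2) * (10 * CR * C1 (q1 * 2 ^ kk)),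
    fun ν hν N hN1 hN2 => ?_⟩
  obtain ⟨p, v1, K1, K2, w, a, β, hw, hPw, haw, hβw, hCw, hCw2, hV, hK1, hK2, hv1, hv2, hu1, hu2,
    hsum⟩ := p5_params hq0 hCR hkk hν
  clear hν
  have h2a : 0 < 2 ^ a := by positivity
  -- the size of `2 ^ w`
  have hw16 : 16 / ε ≤ (2 : ℝ) ^ w := by
    have h1 : (P : ℝ) ≤ (2 : ℝ) ^ P := by
      exact_mod_cast (Nat.lt_two_pow_self (n := P)).le
    have h2 : (2 : ℝ) ^ P ≤ 2 ^ w := pow_le_pow_right₀ (by norm_num) (by omega)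
    linarith
  -- the number `M`
  obtain ⟨M, hM⟩ : ∃ M, M = N / 2 ^ a := ⟨_, rfl⟩
  have hM1 : 2 ^ (w - 1) ≤ M := by
    rw [hM, Nat.le_div_iff_mul_le h2a, ← pow_add]
    have h3 : w - 1 + a = ν - 1 := by omega
    rw [h3]
    exact hN1
  have hM2 : M ≤ 2 ^ w := by
    rw [hM]
    refine Nat.div_le_of_le_mul ?_
    rw [← pow_add, haw]
    exact hN2
  -- the numbers `D`
  have hβa : β ≤ a := by omega
  have hD : ∀ b : ℕ, ∃ D : ℕ, 1 ≤ D ∧ D ≤ 2 ^ (CR * w) ∧ (b * 2 ^ β ≤ 2 ^ ν →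
      ∀ y : ℕ, y < 2 ^ β → Dcond c w a D (((b * 2 ^ β : ℕ) : ℤ) + y)) := by
    intro b
    by_cases hb : b * 2 ^ β ≤ 2 ^ ν
    · obtain ⟨D, h1, h2, h3⟩ := hdex w (by omega) ν a β haw hβw.le hCw (b * 2 ^ β) hb
      exact ⟨D, h1, h2, fun _ => h3⟩
    · exact ⟨1, le_refl _, Nat.one_le_two_pow, fun h => absurd h hb⟩
  choose Dd hD1 hD2 hD3 using hD
  -- the function
  set F : ℤ → ℝ := fun x => ∏ i, TW 0 (3 * ν + C') (qua c (d i) (e i) (f i) (g' i) x) with hFdef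
  have hF1 : ∀ x, |F x| ≤ 1 := by
    intro x
    rw [hFdef]
    show |∏ i, TW 0 (3 * ν + C') (qua c (d i) (e i) (f i) (g' i) x)| ≤ 1
    rw [Finset.abs_prod]
    exact le_of_eq (Finset.prod_eq_one fun i _ => p5_absTW _ _ _)
  obtain ⟨τ, hτ⟩ : ∃ τ, τ = (q1 * 2 ^ kk) * (2 * (q1 * 2 ^ kk) + 5) * p + 1 := ⟨_, rfl⟩
  have hbad := hmost w (by omega) ν a β p v1 K1 K2 M τ haw hβw hCw hw hK1 hK2 hv1 hv2 hu1 hu2
    hsum (by omega) (by omega) hM1 hM2 Dd hD2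
  have hEε : 2 * (((2 ^ (400 * w) + 2 ^ (CR * w) * 2 ^ (18 * w) : ℕ) : ℕ) : ℝ) ≤
      ε / 4 * 2 ^ β := by
    have h1 : 2 ^ (400 * w) + 2 ^ (CR * w) * 2 ^ (18 * w) ≤ 2 * 2 ^ (2 * (CR * w)) := by
      have h2 : 2 ^ (400 * w) ≤ 2 ^ (2 * (CR * w)) := Nat.pow_le_pow_right (by norm_num) (by omega)
      have h3 : 2 ^ (CR * w) * 2 ^ (18 * w) ≤ 2 ^ (2 * (CR * w)) := by
        rw [← pow_add]
        exact Nat.pow_le_pow_right (by norm_num) (by omega)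
      omega
    have h2 : 2 ^ (2 * (CR * w)) * 2 ^ w ≤ 2 ^ β := by
      rw [← pow_add]
      exact Nat.pow_le_pow_right (by norm_num) (by omega)
    have h3 : (((2 ^ (400 * w) + 2 ^ (CR * w) * 2 ^ (18 * w) : ℕ) : ℕ) : ℝ) ≤
        2 * 2 ^ (2 * (CR * w)) := by exact_mod_cast h1
    have h4 : (2 : ℝ) ^ (2 * (CR * w)) * 2 ^ w ≤ 2 ^ β := by exact_mod_cast h2
    have h5 : (2 : ℝ) ^ (2 * (CR * w)) * (16 / ε) ≤ 2 ^ β :=
      (mul_le_mul_of_nonneg_left hw16 (by positivity)).trans h4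
    have h6 : ε / 4 * ((2 : ℝ) ^ (2 * (CR * w)) * (16 / ε)) ≤ ε / 4 * 2 ^ β :=
      mul_le_mul_of_nonneg_left h5 hε4.le
    have h7 : ε / 4 * ((2 : ℝ) ^ (2 * (CR * w)) * (16 / ε)) = 4 * 2 ^ (2 * (CR * w)) := by
      field_simp
      ring
    linarith
  have hmain := p5_avg F hF1 a β M (2 ^ (400 * w)) (2 ^ (18 * w))
    (2 ^ (400 * w) + 2 ^ (CR * w) * 2 ^ (18 * w)) hβa Dd
    (fun b => Nat.add_le_add_left (Nat.mul_le_mul_right _ (hD2 b)) _) _ (ε / 4) hε4.le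
    (fun n0 hn0 hgood => ?_) hbad hEε Nat.one_le_two_pow Nat.one_le_two_pow
  swap
  · rw [not_not] at hgood
    have hdc : Dcond c w a (Dd (n0 / 2 ^ β)) (n0 : ℤ) := by
      have h1 : n0 / 2 ^ β * 2 ^ β ≤ 2 ^ ν := by
        have h2 : n0 / 2 ^ β * 2 ^ β ≤ n0 := Nat.div_mul_le_self _ _
        have h3 : 2 ^ a ≤ 2 ^ ν := Nat.pow_le_pow_right (by norm_num) (by omega)
        omega
      have h2 := hD3 (n0 / 2 ^ β) h1 (n0 % 2 ^ β) (Nat.mod_lt _ (by positivity))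
      have h3 : (((n0 / 2 ^ β * 2 ^ β : ℕ) : ℤ) + ((n0 % 2 ^ β : ℕ) : ℤ)) = (n0 : ℤ) := by
        exact_mod_cast Nat.div_add_mod' n0 (2 ^ β)
      rw [h3] at h2
      exact h2
    have h4 := hcell w (by omega) ν a (CR * w) (Dd (n0 / 2 ^ β)) p v1 K1 K2 M τ C' haw hCw2 hCw
      (hD1 _) (hD2 _) hV (by omega) hw hK1 hK2 hv1 hv2 hu1 hsum (by omega) (by omega) hM1 hM2
      d e f g' hd hCd hCe hCf hCg n0 hn0 hdc hgood
    push_cast
    exact h4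
  -- the rest
  have hsplit : ∑ n ∈ range N, F n = ∑ n ∈ range (M * 2 ^ a), F n +
      ∑ n ∈ range (N % 2 ^ a), F ((M * 2 ^ a + n : ℕ) : ℤ) := by
    have h3 : N = M * 2 ^ a + N % 2 ^ a := by
      rw [hM, mul_comm]
      exact (Nat.div_add_mod N (2 ^ a)).symm
    conv_lhs => rw [h3]
    rw [Finset.sum_range_add]
  have hrest : |∑ n ∈ range (N % 2 ^ a), F ((M * 2 ^ a + n : ℕ) : ℤ)| ≤ ε / 4 * N := by
    have h3 := p5_abs_sum_le (fun n : ℕ => F ((M * 2 ^ a + n : ℕ) : ℤ)) (N % 2 ^ a) 1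
      (fun n _ => hF1 _)
    have h4 : ((N % 2 ^ a : ℕ) : ℝ) ≤ (2 : ℝ) ^ a := by
      exact_mod_cast (Nat.mod_lt N h2a).le
    have h5 : (2 : ℝ) ^ a * 2 ^ w ≤ 2 * N := by
      have h6 : 2 ^ a * 2 ^ w ≤ 2 * N := by
        rw [← pow_add, haw]
        calc 2 ^ ν = 2 * 2 ^ (ν - 1) := by
              rw [← pow_succ']
              congr 1
              omega
          _ ≤ 2 * N := Nat.mul_le_mul_left _ hN1
      exact_mod_cast h6
    have h6 : (2 : ℝ) ^ a * (16 / ε) ≤ 2 * N :=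
      (mul_le_mul_of_nonneg_left hw16 (by positivity)).trans h5
    rw [mul_div_assoc', div_le_iff₀ hε] at h6
    have h7 : (0 : ℝ) ≤ ε * N := by positivity
    linarith
  have hMN : (M : ℝ) * 2 ^ a ≤ N := by
    have h3 : M * 2 ^ a ≤ N := by
      rw [hM]
      exact Nat.div_mul_le_self N (2 ^ a)
    exact_mod_cast h3
  have hMN2 : 3 * (ε / 4) * (M * 2 ^ a) ≤ 3 * (ε / 4) * N :=
    mul_le_mul_of_nonneg_left hMN (by positivity)
  show |∑ n ∈ range N, F n| ≤ ε * N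
  rw [hsplit]
  refine (abs_add_le _ _).trans ?_
  linarith

end Pool.Agent.H96.T4
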